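import Mathlib
set_option autoImplicit false
open Set Filter Topology
open scoped ContDiff

/-!
The compact connected smooth 3-manifold with boundary `M = 𝕋² × [0,1]`, `𝕋² = ℝ²/ℤ²`, in its
global coordinates `(x, y, r)`: `M` is the quotient of the slab `ℝ² × [0,1]` by the translations
by `ℤ²` in `(x, y)`.  Functions (metrics) on `M` are the periodic functions (metrics) on the slab.
-/

namespace Pool.Agent.W545.Tor

/-- coordinates `(x, y, r)` -/
abbrev P : Type := ℝ × ℝ × ℝ

/-- the slab `ℝ² × [0,1]` -/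
def slab : Set P := {p | p.2.2 ∈ Icc (0:ℝ) 1}

/-- `u` descends to a function on `M = 𝕋² × [0,1]` -/
def Periodic (u : P → ℝ) : Prop :=
  ∀ x y r : ℝ, r ∈ Icc (0:ℝ) 1 → u (x + 1, y, r) = u (x, y, r) ∧ u (x, y + 1, r) = u (x, y, r)

/-- `u` is (the lift of) a `C^∞` function on `M`, smooth up to the boundary -/
def IsSmooth (u : P → ℝ) : Prop := ContDiffOn ℝ ∞ u slab ∧ Periodic u

/-- `g` is (the lift of) a smooth Riemannian metric on `M`; `g p` is the matrix of the metric at
`p` in the coordinates `(x, y, r)` -/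
structure IsMetric (g : P → Matrix (Fin 3) (Fin 3) ℝ) : Prop where
  smooth : ∀ i j, IsSmooth fun p => g p i j
  posDef : ∀ p ∈ slab, (g p).PosDef

/-- the coordinate vectors -/
def e : Fin 3 → P := ![(1, 0, 0), (0, 1, 0), (0, 0, 1)]

/-- the partial derivatives of a function on the slab -/
noncomputable def pd (i : Fin 3) (u : P → ℝ) (p : P) : ℝ := fderivWithin ℝ u slab p (e i)

/-- `∫_M f dx dy dr` -/
noncomputable def integral (f : P → ℝ) : ℝ :=
  ∫ x in (0:ℝ)..1, ∫ y in (0:ℝ)..1, ∫ r in (0:ℝ)..1, f (x, y, r)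

/-- the Riemannian volume `Vol_g(M)` -/
noncomputable def vol (g : P → Matrix (Fin 3) (Fin 3) ℝ) : ℝ := integral fun p => √(g p).det

/-- `|∇u|²_g = g^{ij} ∂_i u ∂_j u` -/
noncomputable def gradSq (g : P → Matrix (Fin 3) (Fin 3) ℝ) (u : P → ℝ) (p : P) : ℝ :=
  ∑ i, ∑ j, (g p)⁻¹ i j * pd i u p * pd j u p

/-- `∫_M |∇u|²_g dV_g` -/
noncomputable def energy (g : P → Matrix (Fin 3) (Fin 3) ℝ) (u : P → ℝ) : ℝ :=
  integral fun p => gradSq g u p * √(g p).det

/-- the area density of the metric induced on the tori `r = const` -/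
noncomputable def areaDensity (g : P → Matrix (Fin 3) (Fin 3) ℝ) (p : P) : ℝ :=
  √(g p 0 0 * g p 1 1 - g p 0 1 * g p 1 0)

/-- `∫_{∂M} f dA_g`; the boundary of `M` consists of the two tori `r = 0` and `r = 1` -/
noncomputable def bdryIntegral (g : P → Matrix (Fin 3) (Fin 3) ℝ) (f : P → ℝ) : ℝ :=
  ∫ x in (0:ℝ)..1, ∫ y in (0:ℝ)..1,
    (f (x, y, 0) * areaDensity g (x, y, 0) + f (x, y, 1) * areaDensity g (x, y, 1))

/-- the area `Vol_g(∂M)` of the boundary -/
noncomputable def bdryArea (g : P → Matrix (Fin 3) (Fin 3) ℝ) : ℝ := bdryIntegral g fun _ => 1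

/-- the first nonzero Steklov eigenvalue `σ₁(M, g)`, by its variational characterisation -/
noncomputable def sigma1 (g : P → Matrix (Fin 3) (Fin 3) ℝ) : ℝ :=
  sInf {q : ℝ | ∃ u : P → ℝ, IsSmooth u ∧ bdryIntegral g u = 0 ∧
    bdryIntegral g (fun p => u p ^ 2) ≠ 0 ∧
    q = energy g u / bdryIntegral g (fun p => u p ^ 2)}

end Pool.Agent.W545.Tor
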