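import Mathlib
import Pool.Agent.W545.Tor.Defs
set_option autoImplicit false
open Set Filter Topology MeasureTheory intervalIntegral

namespace Pool.Agent.W545.Tor

/-- Cauchy-Schwarz on the unit interval -/
theorem sq_integral_le {f : ℝ → ℝ} (hf : Continuous f) :
    (∫ t in (0:ℝ)..1, f t) ^ 2 ≤ ∫ t in (0:ℝ)..1, f t ^ 2 := by
  set c := ∫ t in (0:ℝ)..1, f t with hc
  have h1 : 0 ≤ ∫ t in (0:ℝ)..1, (f t - c) ^ 2 :=
    intervalIntegral.integral_nonneg zero_le_one fun t _ => sq_nonneg _
  have h2 : ∫ t in (0:ℝ)..1, (f t - c) ^ 2 = (∫ t in (0:ℝ)..1, f t ^ 2) - c ^ 2 := by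
    have e : ∀ t, (f t - c) ^ 2 = (f t ^ 2 - 2 * c * f t) + c ^ 2 := fun t => by ring
    simp only [e]
    rw [intervalIntegral.integral_add, intervalIntegral.integral_sub,
      intervalIntegral.integral_const_mul, ← hc, intervalIntegral.integral_const]
    · simp; ring
    · exact (hf.pow 2).intervalIntegrable _ _
    · exact (continuous_const.mul hf).intervalIntegrable _ _
    · exact ((hf.pow 2).sub (continuous_const.mul hf)).intervalIntegrable _ _
    · exact continuous_const.intervalIntegrable _ _
  rw [h2] at h1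
  linarith

/-- the basic one-dimensional estimate -/
theorem diff_sq_le {f f' : ℝ → ℝ} (hf : ContinuousOn f (Icc 0 1)) (hf' : Continuous f')
    (hd : ∀ t ∈ Ioo (0:ℝ) 1, HasDerivAt f (f' t) t) {s t : ℝ} (hs : s ∈ Icc (0:ℝ) 1)
    (ht : t ∈ Icc (0:ℝ) 1) : (f s - f t) ^ 2 ≤ ∫ τ in (0:ℝ)..1, f' τ ^ 2 := by
  wlog hst : s ≤ t generalizing s t
  · have := this ht hs (le_of_not_ge hst)
    rwa [← neg_sub, neg_sq] at this
  have h1 : ∫ τ in s..t, f' τ = f t - f s := by
    apply intervalIntegral.integral_eq_sub_of_hasDerivAt_of_le hst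
    · exact hf.mono (Icc_subset_Icc hs.1 ht.2)
    · intro x hx
      exact hd x ⟨lt_of_le_of_lt hs.1 hx.1, lt_of_lt_of_le hx.2 ht.2⟩
    · exact hf'.intervalIntegrable _ _
  have h2 : |f t - f s| ≤ ∫ τ in (0:ℝ)..1, |f' τ| := by
    rw [← h1]
    calc |∫ τ in s..t, f' τ| ≤ ∫ τ in s..t, |f' τ| :=
          intervalIntegral.abs_integral_le_integral_abs hst
      _ ≤ ∫ τ in (0:ℝ)..1, |f' τ| := by
          apply intervalIntegral.integral_mono_interval hs.1 hst ht.2
          · exact Eventually.of_forall fun x => abs_nonneg _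
          · exact hf'.abs.intervalIntegrable _ _
  have h3 := sq_integral_le hf'.abs
  simp only [sq_abs] at h3
  calc (f s - f t) ^ 2 = |f t - f s| ^ 2 := by rw [sq_abs]; ring
    _ ≤ (∫ τ in (0:ℝ)..1, |f' τ|) ^ 2 := by gcongr
    _ ≤ _ := h3

/-- a continuous function takes a value at most its average -/
theorem exists_le_avg {g : ℝ → ℝ} (hg : Continuous g) {a b : ℝ} (hab : a < b) :
    ∃ r ∈ Icc a b, (b - a) * g r ≤ ∫ t in a..b, g t := by
  obtain ⟨r, hr, hmin⟩ := isCompact_Icc.exists_isMinOn (nonempty_Icc.2 hab.le) hg.continuousOn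
  refine ⟨r, hr, ?_⟩
  have h1 : ∫ _t in a..b, g r ≤ ∫ t in a..b, g t := by
    apply intervalIntegral.integral_mono_on hab.le (continuous_const.intervalIntegrable _ _)
      (hg.intervalIntegrable _ _)
    intro t ht
    exact hmin ht
  simpa using h1

theorem swap {F : ℝ → ℝ → ℝ} (hF : Continuous (Function.uncurry F)) (a b c d : ℝ) :
    ∫ x in a..b, ∫ y in c..d, F x y = ∫ y in c..d, ∫ x in a..b, F x y := by
  apply intervalIntegral_intervalIntegral_swap
  refine IntegrableOn.mono_set ?_ (prod_mono uIoc_subset_uIcc uIoc_subset_uIcc)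
  exact hF.continuousOn.integrableOn_compact (isCompact_uIcc.prod isCompact_uIcc)

theorem int_lin {f : ℝ → ℝ} (hf : Continuous f) (c k : ℝ) :
    ∫ t in (0:ℝ)..1, k * (c + f t) = k * (c + ∫ t in (0:ℝ)..1, f t) := by
  rw [intervalIntegral.integral_const_mul, intervalIntegral.integral_add
    (continuous_const.intervalIntegrable _ _) (hf.intervalIntegrable _ _),
    intervalIntegral.integral_const]
  simp

theorem five_sq (a b c d e : ℝ) :
    (a + b + c + d + e) ^ 2 ≤ 5 * (a ^ 2 + b ^ 2 + c ^ 2 + d ^ 2 + e ^ 2) := by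
  nlinarith [sq_nonneg (a - b), sq_nonneg (a - c), sq_nonneg (a - d), sq_nonneg (a - e),
    sq_nonneg (b - c), sq_nonneg (b - d), sq_nonneg (b - e), sq_nonneg (c - d),
    sq_nonneg (c - e), sq_nonneg (d - e)]

/-- data: `U` with its three partial derivatives `a, b, w`, extended continuously -/
structure Dat (U a b w : ℝ → ℝ → ℝ → ℝ) : Prop where
  cU : Continuous fun p : ℝ × ℝ × ℝ => U p.1 p.2.1 p.2.2
  ca : Continuous fun p : ℝ × ℝ × ℝ => a p.1 p.2.1 p.2.2
  cb : Continuous fun p : ℝ × ℝ × ℝ => b p.1 p.2.1 p.2.2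
  cw : Continuous fun p : ℝ × ℝ × ℝ => w p.1 p.2.1 p.2.2
  da : ∀ x y, ∀ r ∈ Icc (0:ℝ) 1, HasDerivAt (fun t => U t y r) (a x y r) x
  db : ∀ x y, ∀ r ∈ Icc (0:ℝ) 1, HasDerivAt (fun t => U x t r) (b x y r) y
  dw : ∀ x y, ∀ r ∈ Ioo (0:ℝ) 1, HasDerivAt (fun t => U x y t) (w x y r) r

variable {U a b w : ℝ → ℝ → ℝ → ℝ}

theorem Dat.cU' (h : Dat U a b w) {X : Type*} [TopologicalSpace X] {f g k : X → ℝ}
    (hf : Continuous f) (hg : Continuous g) (hk : Continuous k) :
    Continuous fun x => U (f x) (g x) (k x) := h.cU.comp (hf.prodMk (hg.prodMk hk))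
theorem Dat.ca' (h : Dat U a b w) {X : Type*} [TopologicalSpace X] {f g k : X → ℝ}
    (hf : Continuous f) (hg : Continuous g) (hk : Continuous k) :
    Continuous fun x => a (f x) (g x) (k x) := h.ca.comp (hf.prodMk (hg.prodMk hk))
theorem Dat.cb' (h : Dat U a b w) {X : Type*} [TopologicalSpace X] {f g k : X → ℝ}
    (hf : Continuous f) (hg : Continuous g) (hk : Continuous k) :
    Continuous fun x => b (f x) (g x) (k x) := h.cb.comp (hf.prodMk (hg.prodMk hk))
theorem Dat.cw' (h : Dat U a b w) {X : Type*} [TopologicalSpace X] {f g k : X → ℝ}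
    (hf : Continuous f) (hg : Continuous g) (hk : Continuous k) :
    Continuous fun x => w (f x) (g x) (k x) := h.cw.comp (hf.prodMk (hg.prodMk hk))

/-- `∫ w²` along a vertical fibre -/
noncomputable def RR (w : ℝ → ℝ → ℝ → ℝ) (x y : ℝ) : ℝ := ∫ t in (0:ℝ)..1, w x y t ^ 2
/-- `∫ a²` over `x` and the first layer -/
noncomputable def AA (a : ℝ → ℝ → ℝ → ℝ) (y : ℝ) : ℝ :=
  ∫ x in (0:ℝ)..1, ∫ r in (1/6:ℝ)..(1/3), a x y r ^ 2
/-- `∫ b²` over `y` and the second layer -/
noncomputable def BB (b : ℝ → ℝ → ℝ → ℝ) (x : ℝ) : ℝ :=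
  ∫ y in (0:ℝ)..1, ∫ r in (2/3:ℝ)..(5/6), b x y r ^ 2

theorem cont_RR (h : Dat U a b w) {X : Type*} [TopologicalSpace X] {f g : X → ℝ}
    (hf : Continuous f) (hg : Continuous g) : Continuous fun x => RR w (f x) (g x) := by
  unfold RR
  apply intervalIntegral.continuous_parametric_intervalIntegral_of_continuous'
  exact (h.cw' (hf.comp continuous_fst) (hg.comp continuous_fst) continuous_snd).pow 2

theorem cont_AA (h : Dat U a b w) {X : Type*} [TopologicalSpace X] {f : X → ℝ}
    (hf : Continuous f) : Continuous fun x => AA a (f x) := by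
  unfold AA
  apply intervalIntegral.continuous_parametric_intervalIntegral_of_continuous'
  apply intervalIntegral.continuous_parametric_intervalIntegral_of_continuous'
  exact (h.ca' (continuous_snd.comp continuous_fst)
    (hf.comp (continuous_fst.comp continuous_fst)) continuous_snd).pow 2

theorem cont_BB (h : Dat U a b w) {X : Type*} [TopologicalSpace X] {f : X → ℝ}
    (hf : Continuous f) : Continuous fun x => BB b (f x) := by
  unfold BB
  apply intervalIntegral.continuous_parametric_intervalIntegral_of_continuous'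
  apply intervalIntegral.continuous_parametric_intervalIntegral_of_continuous'
  exact (h.cb' (hf.comp (continuous_fst.comp continuous_fst))
    (continuous_snd.comp continuous_fst) continuous_snd).pow 2

theorem vert (h : Dat U a b w) (x y : ℝ) {s t : ℝ} (hs : s ∈ Icc (0:ℝ) 1) (ht : t ∈ Icc (0:ℝ) 1) :
    (U x y s - U x y t) ^ 2 ≤ RR w x y := by
  refine diff_sq_le (f := fun r => U x y r) (f' := fun r => w x y r) ?_ ?_ (h.dw x y) hs ht
  · exact (h.cU' continuous_const continuous_const continuous_id).continuousOn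
  · exact h.cw' continuous_const continuous_const continuous_id

/-- the pointwise estimate -/
theorem pointwise (h : Dat U a b w) {x y x' y' s s' : ℝ} (hx : x ∈ Icc (0:ℝ) 1)
    (hy : y ∈ Icc (0:ℝ) 1) (hx' : x' ∈ Icc (0:ℝ) 1) (hy' : y' ∈ Icc (0:ℝ) 1)
    (hs : s ∈ Icc (0:ℝ) 1) (hs' : s' ∈ Icc (0:ℝ) 1) :
    (U x y s - U x' y' s') ^ 2 ≤
      5 * (RR w x y + RR w x' y + RR w x' y' + 6 * AA a y + 6 * BB b x') := by
  have hcg : Continuous fun r => ∫ ξ in (0:ℝ)..1, a ξ y r ^ 2 := by
    apply intervalIntegral.continuous_parametric_intervalIntegral_of_continuous'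
    exact (h.ca' continuous_snd continuous_const continuous_fst).pow 2
  have hch : Continuous fun r => ∫ η in (0:ℝ)..1, b x' η r ^ 2 := by
    apply intervalIntegral.continuous_parametric_intervalIntegral_of_continuous'
    exact (h.cb' continuous_const continuous_snd continuous_fst).pow 2
  obtain ⟨r, hr, h1⟩ := exists_le_avg hcg (show (1/6:ℝ) < 1/3 by norm_num)
  obtain ⟨q, hq, h2⟩ := exists_le_avg hch (show (2/3:ℝ) < 5/6 by norm_num)
  have hr' : r ∈ Icc (0:ℝ) 1 := ⟨by linarith [hr.1], by linarith [hr.2]⟩
  have hq' : q ∈ Icc (0:ℝ) 1 := ⟨by linarith [hq.1], by linarith [hq.2]⟩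
  have e1 : ∫ t in (1/6:ℝ)..(1/3), ∫ ξ in (0:ℝ)..1, a ξ y t ^ 2 = AA a y := by
    unfold AA
    apply swap
    exact (h.ca' continuous_snd continuous_const continuous_fst).pow 2
  have e2 : ∫ t in (2/3:ℝ)..(5/6), ∫ η in (0:ℝ)..1, b x' η t ^ 2 = BB b x' := by
    unfold BB
    apply swap
    exact (h.cb' continuous_const continuous_snd continuous_fst).pow 2
  rw [e1] at h1
  rw [e2] at h2
  have h3 : (U x y r - U x' y r) ^ 2 ≤ ∫ ξ in (0:ℝ)..1, a ξ y r ^ 2 := by
    refine diff_sq_le (f := fun t => U t y r) (f' := fun t => a t y r) ?_ ?_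
      (fun t _ => h.da t y r hr') hx hx'
    · exact (h.cU' continuous_id continuous_const continuous_const).continuousOn
    · exact h.ca' continuous_id continuous_const continuous_const
  have h4 : (U x' y q - U x' y' q) ^ 2 ≤ ∫ η in (0:ℝ)..1, b x' η q ^ 2 := by
    refine diff_sq_le (f := fun t => U x' t q) (f' := fun t => b x' t q) ?_ ?_
      (fun t _ => h.db x' t q hq') hy hy'
    · exact (h.cU' continuous_const continuous_id continuous_const).continuousOn
    · exact h.cb' continuous_const continuous_id continuous_const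
  have h5 := vert h x y hs hr'
  have h6 := vert h x' y hr' hq'
  have h7 := vert h x' y' hq' hs'
  have h8 := five_sq (U x y s - U x y r) (U x y r - U x' y r) (U x' y r - U x' y q)
    (U x' y q - U x' y' q) (U x' y' q - U x' y' s')
  have h9 : U x y s - U x y r + (U x y r - U x' y r) + (U x' y r - U x' y q) +
    (U x' y q - U x' y' q) + (U x' y' q - U x' y' s') = U x y s - U x' y' s' := by ring
  rw [h9] at h8
  linarith

/-- the integrated estimate -/
theorem integrated (h : Dat U a b w) {s s' : ℝ} (hs : s ∈ Icc (0:ℝ) 1) (hs' : s' ∈ Icc (0:ℝ) 1) :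
    ∫ x in (0:ℝ)..1, ∫ y in (0:ℝ)..1, ∫ x' in (0:ℝ)..1, ∫ y' in (0:ℝ)..1,
      (U x y s - U x' y' s') ^ 2 ≤
    30 * ((∫ x in (0:ℝ)..1, ∫ y in (0:ℝ)..1, RR w x y) + (∫ y in (0:ℝ)..1, AA a y) +
      ∫ x in (0:ℝ)..1, BB b x) := by
  set TR := ∫ x in (0:ℝ)..1, ∫ y in (0:ℝ)..1, RR w x y with hTR
  set TA := ∫ y in (0:ℝ)..1, AA a y with hTA
  set TB := ∫ x in (0:ℝ)..1, BB b x with hTB
  have hTR' : ∫ y in (0:ℝ)..1, ∫ x in (0:ℝ)..1, RR w x y = TR := by
    rw [hTR, swap]
    exact cont_RR h (X := ℝ × ℝ) (f := fun q => q.2) (g := fun q => q.1) continuous_snd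
      continuous_fst
  -- first integration
  have s1 : ∀ x ∈ Icc (0:ℝ) 1, ∀ y ∈ Icc (0:ℝ) 1, ∀ x' ∈ Icc (0:ℝ) 1,
      ∫ y' in (0:ℝ)..1, (U x y s - U x' y' s') ^ 2 ≤
        5 * ((RR w x y + RR w x' y + 6 * AA a y + 6 * BB b x') + ∫ y' in (0:ℝ)..1, RR w x' y') := by
    intro x hx y hy x' hx'
    rw [← int_lin (f := fun y' => RR w x' y') (cont_RR h continuous_const continuous_id')]
    apply intervalIntegral.integral_mono_on zero_le_one
    · exact Continuous.intervalIntegrable
        ((continuous_const.sub (h.cU' continuous_const continuous_id continuous_const)).pow 2) _ _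
    · exact Continuous.intervalIntegrable (continuous_const.mul (continuous_const.add
        (cont_RR h continuous_const continuous_id))) _ _
    · intro y' hy'
      have := pointwise h hx hy hx' hy' hs hs'
      linarith
  have cRy : Continuous fun x' => ∫ y' in (0:ℝ)..1, RR w x' y' := by
    apply intervalIntegral.continuous_parametric_intervalIntegral_of_continuous'
    exact cont_RR h continuous_fst continuous_snd
  have cRx : Continuous fun y => ∫ x' in (0:ℝ)..1, RR w x' y := by
    apply intervalIntegral.continuous_parametric_intervalIntegral_of_continuous'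
    exact cont_RR h continuous_snd continuous_fst
  have s2 : ∀ x ∈ Icc (0:ℝ) 1, ∀ y ∈ Icc (0:ℝ) 1,
      ∫ x' in (0:ℝ)..1, ∫ y' in (0:ℝ)..1, (U x y s - U x' y' s') ^ 2 ≤
        5 * ((RR w x y + 6 * AA a y) + ((∫ x' in (0:ℝ)..1, RR w x' y) + 6 * TB + TR)) := by
    intro x hx y hy
    have e1 : (∫ x' in (0:ℝ)..1, RR w x' y) + 6 * TB + TR =
        ∫ x' in (0:ℝ)..1, (RR w x' y + 6 * BB b x' + ∫ y' in (0:ℝ)..1, RR w x' y') := by
      rw [intervalIntegral.integral_add, intervalIntegral.integral_add,
        intervalIntegral.integral_const_mul]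
      · exact (cont_RR h continuous_id continuous_const).intervalIntegrable _ _
      · exact (continuous_const.mul (cont_BB h continuous_id)).intervalIntegrable _ _
      · exact ((cont_RR h continuous_id continuous_const).add
          (continuous_const.mul (cont_BB h continuous_id))).intervalIntegrable _ _
      · exact cRy.intervalIntegrable _ _
    rw [e1, ← int_lin]
    · apply intervalIntegral.integral_mono_on zero_le_one
      · apply Continuous.intervalIntegrable
        apply intervalIntegral.continuous_parametric_intervalIntegral_of_continuous'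
        exact (continuous_const.sub (h.cU' continuous_fst continuous_snd continuous_const)).pow 2
      · apply Continuous.intervalIntegrable
        exact continuous_const.mul (continuous_const.add
          (((cont_RR h continuous_id continuous_const).add
          (continuous_const.mul (cont_BB h continuous_id))).add cRy))
      · intro x' hx'
        have := s1 x hx y hy x' hx'
        linarith
    · exact ((cont_RR h continuous_id continuous_const).add
          (continuous_const.mul (cont_BB h continuous_id))).add cRy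
  have s3 : ∀ x ∈ Icc (0:ℝ) 1,
      ∫ y in (0:ℝ)..1, ∫ x' in (0:ℝ)..1, ∫ y' in (0:ℝ)..1, (U x y s - U x' y' s') ^ 2 ≤
        5 * ((6 * TB + TR) + ((∫ y in (0:ℝ)..1, RR w x y) + 6 * TA + TR)) := by
    intro x hx
    have e1 : (∫ y in (0:ℝ)..1, RR w x y) + 6 * TA + TR =
        ∫ y in (0:ℝ)..1, (RR w x y + 6 * AA a y + ∫ x' in (0:ℝ)..1, RR w x' y) := by
      rw [intervalIntegral.integral_add, intervalIntegral.integral_add,
        intervalIntegral.integral_const_mul, hTR']
      · exact (cont_RR h continuous_const continuous_id).intervalIntegrable _ _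
      · exact (continuous_const.mul (cont_AA h continuous_id)).intervalIntegrable _ _
      · exact ((cont_RR h continuous_const continuous_id).add
          (continuous_const.mul (cont_AA h continuous_id))).intervalIntegrable _ _
      · exact cRx.intervalIntegrable _ _
    rw [e1, ← int_lin]
    · apply intervalIntegral.integral_mono_on zero_le_one
      · apply Continuous.intervalIntegrable
        apply intervalIntegral.continuous_parametric_intervalIntegral_of_continuous'
        apply intervalIntegral.continuous_parametric_intervalIntegral_of_continuous'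
        exact ((h.cU' continuous_const (continuous_fst.comp continuous_fst) continuous_const).sub
          (h.cU' (continuous_snd.comp continuous_fst) continuous_snd continuous_const)).pow 2
      · apply Continuous.intervalIntegrable
        exact continuous_const.mul (continuous_const.add
          (((cont_RR h continuous_const continuous_id).add
          (continuous_const.mul (cont_AA h continuous_id))).add cRx))
      · intro y hy
        have := s2 x hx y hy
        linarith
    · exact ((cont_RR h continuous_const continuous_id).add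
          (continuous_const.mul (cont_AA h continuous_id))).add cRx
  have s4 : ∫ x in (0:ℝ)..1, ∫ y in (0:ℝ)..1, ∫ x' in (0:ℝ)..1, ∫ y' in (0:ℝ)..1,
      (U x y s - U x' y' s') ^ 2 ≤ 5 * ((6 * TB + TR + 6 * TA + TR) + TR) := by
    rw [hTR, ← int_lin cRy]
    apply intervalIntegral.integral_mono_on zero_le_one
    · apply Continuous.intervalIntegrable
      apply intervalIntegral.continuous_parametric_intervalIntegral_of_continuous'
      apply intervalIntegral.continuous_parametric_intervalIntegral_of_continuous'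
      apply intervalIntegral.continuous_parametric_intervalIntegral_of_continuous'
      exact ((h.cU' (continuous_fst.comp (continuous_fst.comp continuous_fst))
        (continuous_snd.comp (continuous_fst.comp continuous_fst)) continuous_const).sub
          (h.cU' (continuous_snd.comp continuous_fst) continuous_snd continuous_const)).pow 2
    · apply Continuous.intervalIntegrable
      exact continuous_const.mul (continuous_const.add cRy)
    · intro x hx
      have := s3 x hx
      rw [← hTR]
      linarith
  have hRnn : 0 ≤ TR := by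
    apply intervalIntegral.integral_nonneg zero_le_one
    intro x _
    apply intervalIntegral.integral_nonneg zero_le_one
    intro y _
    apply intervalIntegral.integral_nonneg zero_le_one
    intro t _
    positivity
  linarith

end Pool.Agent.W545.Tor
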