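import Mathlib
import Pool.Agent.W545.Tor.Defs
import Pool.Agent.W545.Tor.Ineq
set_option autoImplicit false
open Set Filter Topology MeasureTheory intervalIntegral
open scoped ContDiff

namespace Pool.Agent.W545.Tor

/-- clamp to [0,1] -/
noncomputable def cl (t : ℝ) : ℝ := max 0 (min 1 t)

theorem cl_mem (t : ℝ) : cl t ∈ Icc (0:ℝ) 1 :=
  ⟨le_max_left _ _, max_le zero_le_one (min_le_left _ _)⟩

theorem cl_eq {t : ℝ} (ht : t ∈ Icc (0:ℝ) 1) : cl t = t := by
  unfold cl; rw [min_eq_right ht.2, max_eq_right ht.1]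

theorem cl_cont : Continuous cl := by unfold cl; fun_prop

theorem slab_eq : slab = (univ : Set ℝ) ×ˢ ((univ : Set ℝ) ×ˢ Icc (0:ℝ) 1) := by
  ext ⟨x, y, r⟩; simp [slab]

theorem slab_ud : UniqueDiffOn ℝ slab := by
  rw [slab_eq]
  exact uniqueDiffOn_univ.prod (uniqueDiffOn_univ.prod (uniqueDiffOn_Icc zero_lt_one))

theorem mem_slab (x y t : ℝ) : ((x, y, cl t) : P) ∈ slab := cl_mem t

theorem cont_of_slab {f : P → ℝ} (hf : ContinuousOn f slab) :
    Continuous fun p : ℝ × ℝ × ℝ => f (p.1, p.2.1, cl p.2.2) :=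
  hf.comp_continuous (by
    have := cl_cont
    fun_prop) fun p => mem_slab _ _ _

theorem pd_cont {u : P → ℝ} (hu : ContDiffOn ℝ ∞ u slab) (i : Fin 3) :
    ContinuousOn (pd i u) slab := by
  unfold pd
  have := hu.continuousOn_fderivWithin slab_ud (by simp)
  exact this.clm_apply continuousOn_const

theorem hasf {u : P → ℝ} (hu : ContDiffOn ℝ ∞ u slab) {p : P} (hp : p ∈ slab) :
    HasFDerivWithinAt u (fderivWithin ℝ u slab p) slab p :=
  ((hu.differentiableOn (by simp)) p hp).hasFDerivWithinAt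

theorem mkDat {u : P → ℝ} (hu : ContDiffOn ℝ ∞ u slab) :
    Dat (fun x y t => u (x, y, cl t)) (fun x y t => pd 0 u (x, y, cl t))
      (fun x y t => pd 1 u (x, y, cl t)) (fun x y t => pd 2 u (x, y, cl t)) where
  cU := cont_of_slab hu.continuousOn
  ca := cont_of_slab (pd_cont hu 0)
  cb := cont_of_slab (pd_cont hu 1)
  cw := cont_of_slab (pd_cont hu 2)
  da := by
    intro x y r hr
    have h1 : HasDerivAt (fun t : ℝ => ((t, y, cl r) : P)) (1, 0, 0) x :=
      (hasDerivAt_id x).prodMk ((hasDerivAt_const x y).prodMk (hasDerivAt_const x (cl r)))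
    have h2 := (hasf hu (mem_slab x y r)).comp_hasDerivWithinAt (t := slab) x
      (s := univ) (f := fun t : ℝ => ((t, y, cl r) : P)) h1.hasDerivWithinAt
      (fun t _ => mem_slab t y r)
    rw [hasDerivWithinAt_univ] at h2
    exact h2
  db := by
    intro x y r hr
    have h1 : HasDerivAt (fun t : ℝ => ((x, t, cl r) : P)) (0, 1, 0) y :=
      (hasDerivAt_const y x).prodMk ((hasDerivAt_id y).prodMk (hasDerivAt_const y (cl r)))
    have h2 := (hasf hu (mem_slab x y r)).comp_hasDerivWithinAt (t := slab) y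
      (s := univ) (f := fun t : ℝ => ((x, t, cl r) : P)) h1.hasDerivWithinAt
      (fun t _ => mem_slab x t r)
    rw [hasDerivWithinAt_univ] at h2
    exact h2
  dw := by
    intro x y r hr
    have hr' : r ∈ Icc (0:ℝ) 1 := Ioo_subset_Icc_self hr
    have h1 : HasDerivAt (fun t : ℝ => ((x, y, t) : P)) (0, 0, 1) r :=
      (hasDerivAt_const r x).prodMk ((hasDerivAt_const r y).prodMk (hasDerivAt_id r))
    have hp : ((x, y, r) : P) ∈ slab := hr'
    have h2 := (hasf hu hp).comp_hasDerivWithinAt (t := slab) r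
      (s := Icc 0 1) (f := fun t : ℝ => ((x, y, t) : P)) h1.hasDerivWithinAt
      (fun t ht => ht)
    have h3 := h2.hasDerivAt (Icc_mem_nhds hr.1 hr.2)
    have h4 : (fun t => u (x, y, cl t)) =ᶠ[𝓝 r] (u ∘ fun t : ℝ => ((x, y, t) : P)) := by
      filter_upwards [Icc_mem_nhds hr.1 hr.2] with t ht
      simp only [Function.comp, cl_eq ht]
    have h5 := h3.congr_of_eventuallyEq h4
    rw [cl_eq hr']
    exact h5

/-- double integral -/
noncomputable def I2 (F : ℝ → ℝ → ℝ) : ℝ := ∫ x in (0:ℝ)..1, ∫ y in (0:ℝ)..1, F x y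

theorem I2_add {F G : ℝ → ℝ → ℝ} (hF : Continuous fun q : ℝ × ℝ => F q.1 q.2)
    (hG : Continuous fun q : ℝ × ℝ => G q.1 q.2) :
    I2 (fun x y => F x y + G x y) = I2 F + I2 G := by
  unfold I2
  have h1 : ∀ x, ∫ y in (0:ℝ)..1, (F x y + G x y) =
      (∫ y in (0:ℝ)..1, F x y) + ∫ y in (0:ℝ)..1, G x y := by
    intro x
    apply intervalIntegral.integral_add
    · exact (hF.comp (continuous_const.prodMk continuous_id)).intervalIntegrable _ _
    · exact (hG.comp (continuous_const.prodMk continuous_id)).intervalIntegrable _ _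
  simp only [h1]
  apply intervalIntegral.integral_add
  · apply Continuous.intervalIntegrable
    exact intervalIntegral.continuous_parametric_intervalIntegral_of_continuous' hF _ _
  · apply Continuous.intervalIntegrable
    exact intervalIntegral.continuous_parametric_intervalIntegral_of_continuous' hG _ _

theorem I2_mul (F : ℝ → ℝ → ℝ) (c : ℝ) : I2 (fun x y => c * F x y) = c * I2 F := by
  unfold I2
  simp only [intervalIntegral.integral_const_mul]

theorem I2_const (c : ℝ) : I2 (fun _ _ => c) = c := by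
  unfold I2; simp

theorem I2_mono {F G : ℝ → ℝ → ℝ} (hF : Continuous fun q : ℝ × ℝ => F q.1 q.2)
    (hG : Continuous fun q : ℝ × ℝ => G q.1 q.2) (h : ∀ x y, F x y ≤ G x y) : I2 F ≤ I2 G := by
  unfold I2
  apply intervalIntegral.integral_mono_on zero_le_one
  · apply Continuous.intervalIntegrable
    exact intervalIntegral.continuous_parametric_intervalIntegral_of_continuous' hF _ _
  · apply Continuous.intervalIntegrable
    exact intervalIntegral.continuous_parametric_intervalIntegral_of_continuous' hG _ _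
  intro x _
  apply intervalIntegral.integral_mono_on zero_le_one
  · exact (hF.comp (continuous_const.prodMk continuous_id)).intervalIntegrable _ _
  · exact (hG.comp (continuous_const.prodMk continuous_id)).intervalIntegrable _ _
  intro y _
  exact h x y

theorem expand {F G : ℝ → ℝ → ℝ} (hF : Continuous fun q : ℝ × ℝ => F q.1 q.2)
    (hG : Continuous fun q : ℝ × ℝ => G q.1 q.2) :
    ∫ x in (0:ℝ)..1, ∫ y in (0:ℝ)..1, ∫ x' in (0:ℝ)..1, ∫ y' in (0:ℝ)..1,
      (F x y - G x' y') ^ 2 =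
    I2 (fun x y => F x y ^ 2) + I2 (fun x y => G x y ^ 2) - 2 * I2 F * I2 G := by
  have h1 : ∀ c : ℝ, I2 (fun x' y' => (c - G x' y') ^ 2) =
      c ^ 2 + ((-2 * c) * I2 G + I2 (fun x y => G x y ^ 2)) := by
    intro c
    have e : (fun x' y' => (c - G x' y') ^ 2) =
        fun x' y' => c ^ 2 + ((-2 * c) * G x' y' + G x' y' ^ 2) := by
      funext x' y'; ring
    rw [e, I2_add continuous_const ((continuous_const.mul hG).add (hG.pow 2)),
      I2_add (continuous_const.mul hG) (hG.pow 2), I2_mul, I2_const]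
  have h2 : ∀ x y, ∫ x' in (0:ℝ)..1, ∫ y' in (0:ℝ)..1, (F x y - G x' y') ^ 2 =
      F x y ^ 2 + ((-2 * I2 G) * F x y + I2 (fun x y => G x y ^ 2)) := by
    intro x y
    have := h1 (F x y)
    unfold I2 at this ⊢
    rw [this]; ring
  simp only [h2]
  have := I2_add (F := fun x y => F x y ^ 2)
    (G := fun x y => (-2 * I2 G) * F x y + I2 (fun x y => G x y ^ 2)) (hF.pow 2)
    ((continuous_const.mul hF).add continuous_const)
  rw [I2_add (F := fun x y => (-2 * I2 G) * F x y) (G := fun _ _ => I2 (fun x y => G x y ^ 2))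
    (continuous_const.mul hF) continuous_const, I2_mul, I2_const] at this
  rw [show (∫ x in (0:ℝ)..1, ∫ y in (0:ℝ)..1,
    (F x y ^ 2 + ((-2 * I2 G) * F x y + I2 (fun x y => G x y ^ 2)))) =
    I2 (fun x y => F x y ^ 2 + ((-2 * I2 G) * F x y + I2 (fun x y => G x y ^ 2))) from rfl, this]
  ring

variable {U a b w : ℝ → ℝ → ℝ → ℝ}

theorem key (h : Dat U a b w) (h0 : I2 (fun x y => U x y 0) + I2 (fun x y => U x y 1) = 0) :
    I2 (fun x y => U x y 0 ^ 2) + I2 (fun x y => U x y 1 ^ 2) ≤
    30 * ((∫ x in (0:ℝ)..1, ∫ y in (0:ℝ)..1, RR w x y) + (∫ y in (0:ℝ)..1, AA a y) +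
      ∫ x in (0:ℝ)..1, BB b x) := by
  have c0 : Continuous fun q : ℝ × ℝ => U q.1 q.2 0 :=
    h.cU' continuous_fst continuous_snd continuous_const
  have c1 : Continuous fun q : ℝ × ℝ => U q.1 q.2 1 :=
    h.cU' continuous_fst continuous_snd continuous_const
  have m0 : (0:ℝ) ∈ Icc (0:ℝ) 1 := ⟨le_refl _, zero_le_one⟩
  have m1 : (1:ℝ) ∈ Icc (0:ℝ) 1 := ⟨zero_le_one, le_refl _⟩
  have i00 := integrated h m0 m0
  have i01 := integrated h m0 m1
  have i10 := integrated h m1 m0
  have i11 := integrated h m1 m1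
  rw [expand c0 c0] at i00
  rw [expand c0 c1] at i01
  rw [expand c1 c0] at i10
  rw [expand c1 c1] at i11
  set A := I2 (fun x y => U x y 0)
  set B := I2 (fun x y => U x y 1)
  have : (A + B) ^ 2 = 0 := by rw [h0]; ring
  nlinarith

end Pool.Agent.W545.Tor
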