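import Mathlib
import Pool.Agent.W545.Tor.Defs
import Pool.Agent.W545.Tor.Ineq
import Pool.Agent.W545.Tor.Build
set_option autoImplicit false
open Set Filter Topology MeasureTheory intervalIntegral
open scoped ContDiff

namespace Pool.Agent.W545.Tor

/-- the profile -/
noncomputable def prof (r : ℝ) : ℝ := 27 * (r * (1 - r) * (1 - 2 * r))

theorem prof_lo {r : ℝ} (h1 : 1 / 6 ≤ r) (h2 : r ≤ 1 / 3) : 2 ≤ prof r := by
  unfold prof
  nlinarith [mul_nonneg (sub_nonneg.2 h1) (sub_nonneg.2 h2),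
    mul_nonneg (mul_nonneg (sub_nonneg.2 h1) (sub_nonneg.2 h2)) (sub_nonneg.2 h1),
    mul_nonneg (mul_nonneg (sub_nonneg.2 h1) (sub_nonneg.2 h2)) (sub_nonneg.2 h2)]

theorem prof_hi {r : ℝ} (h1 : 2 / 3 ≤ r) (h2 : r ≤ 5 / 6) : 2 ≤ -prof r := by
  have := prof_lo (r := 1 - r) (by linarith) (by linarith)
  have e : prof (1 - r) = - prof r := by unfold prof; ring
  rwa [e] at this

/-- the metrics -/
noncomputable def gK (K : ℝ) (p : P) : Matrix (Fin 3) (Fin 3) ℝ :=
  Matrix.diagonal ![Real.exp (-(K * prof p.2.2)), Real.exp (K * prof p.2.2), 1 / K ^ 2]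

theorem gK_det {K : ℝ} (p : P) : (gK K p).det = (1 / K) ^ 2 := by
  unfold gK
  rw [Matrix.det_diagonal, Fin.prod_univ_three]
  simp only [Matrix.cons_val_zero, Matrix.cons_val_one, Matrix.cons_val_two]
  rw [← Real.exp_add]
  simp

theorem gK_sqrt {K : ℝ} (hK : 0 < K) (p : P) : √(gK K p).det = 1 / K := by
  rw [gK_det, Real.sqrt_sq (by positivity)]

theorem gK_inv {K : ℝ} (hK : 0 < K) (p : P) : (gK K p)⁻¹ =
    Matrix.diagonal ![Real.exp (K * prof p.2.2), Real.exp (-(K * prof p.2.2)), K ^ 2] := by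
  apply Matrix.inv_eq_right_inv
  unfold gK
  rw [Matrix.diagonal_mul_diagonal, ← Matrix.diagonal_one]
  congr 1
  funext i
  fin_cases i
  · simp [← Real.exp_add]
  · simp [← Real.exp_add]
  · simp; field_simp

theorem gradSq_eq {K : ℝ} (hK : 0 < K) (u : P → ℝ) (p : P) :
    gradSq (gK K) u p * √(gK K p).det =
      1 / K * (Real.exp (K * prof p.2.2) * pd 0 u p ^ 2 +
        Real.exp (-(K * prof p.2.2)) * pd 1 u p ^ 2 + K ^ 2 * pd 2 u p ^ 2) := by
  unfold gradSq
  rw [gK_sqrt hK, gK_inv hK]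
  simp only [Fin.sum_univ_three, Matrix.diagonal_apply]
  simp
  ring

theorem gK_metric {K : ℝ} (hK : 0 < K) : IsMetric (gK K) where
  smooth := by
    intro i j
    refine ⟨ContDiff.contDiffOn ?_, ?_⟩
    · fin_cases i <;> fin_cases j <;> simp [gK, prof] <;> fun_prop
    · intro x y r _
      exact ⟨rfl, rfl⟩
  posDef := by
    intro p _
    apply Matrix.PosDef.diagonal
    intro i
    fin_cases i
    · simp [Real.exp_pos]
    · simp [Real.exp_pos]
    · simp; positivity

theorem area0 (K : ℝ) (x y : ℝ) : areaDensity (gK K) (x, y, 0) = 1 := by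
  unfold areaDensity gK prof
  simp

theorem area1 (K : ℝ) (x y : ℝ) : areaDensity (gK K) (x, y, 1) = 1 := by
  unfold areaDensity gK prof
  simp

theorem bdry_eq (K : ℝ) {f : P → ℝ} (h0 : Continuous fun q : ℝ × ℝ => f (q.1, q.2, 0))
    (h1 : Continuous fun q : ℝ × ℝ => f (q.1, q.2, 1)) :
    bdryIntegral (gK K) f = I2 (fun x y => f (x, y, 0)) + I2 (fun x y => f (x, y, 1)) := by
  rw [← I2_add h0 h1]
  unfold bdryIntegral I2
  simp only [area0, area1, mul_one]

theorem bdry_area (K : ℝ) : bdryArea (gK K) = 2 := by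
  unfold bdryArea
  rw [bdry_eq K continuous_const continuous_const, I2_const]
  norm_num

theorem vol_eq {K : ℝ} (hK : 0 < K) : vol (gK K) = 1 / K := by
  unfold vol integral
  simp only [gK_sqrt hK]
  simp

/-- monotonicity of the integral of a nonnegative function in the interval, with a comparison -/
theorem layer {f g : ℝ → ℝ} (hf : Continuous f) (hg : Continuous g) {a b : ℝ} (ha : 0 ≤ a)
    (hab : a ≤ b) (hb : b ≤ 1) (h0 : ∀ t, 0 ≤ f t) (h : ∀ t ∈ Icc a b, g t ≤ f t) :
    ∫ t in a..b, g t ≤ ∫ t in (0:ℝ)..1, f t := by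
  calc ∫ t in a..b, g t ≤ ∫ t in a..b, f t :=
        intervalIntegral.integral_mono_on hab (hg.intervalIntegrable _ _)
          (hf.intervalIntegrable _ _) h
    _ ≤ ∫ t in (0:ℝ)..1, f t := by
        apply intervalIntegral.integral_mono_interval ha hab hb
        · exact Eventually.of_forall fun t => h0 t
        · exact hf.intervalIntegrable _ _

theorem exp_ge {K t : ℝ} (hK : 0 < K) (ht : 2 ≤ t) : K ^ 2 ≤ Real.exp (K * t) := by
  have h1 : K ≤ Real.exp K := by linarith [Real.add_one_le_exp K]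
  calc K ^ 2 ≤ Real.exp K ^ 2 := by gcongr
    _ = Real.exp (K * 2) := by rw [← Real.exp_nat_mul]; congr 1; push_cast; ring
    _ ≤ Real.exp (K * t) := by gcongr

/-- the lower bound for the energy -/
theorem energy_ge {K : ℝ} (hK : 0 < K) {u : P → ℝ} (hu : ContDiffOn ℝ ∞ u slab) :
    K * ((∫ x in (0:ℝ)..1, ∫ y in (0:ℝ)..1, RR (fun x y t => pd 2 u (x, y, cl t)) x y) +
      (∫ y in (0:ℝ)..1, AA (fun x y t => pd 0 u (x, y, cl t)) y) +
      ∫ x in (0:ℝ)..1, BB (fun x y t => pd 1 u (x, y, cl t)) x) ≤ energy (gK K) u := by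
  have D := mkDat hu
  set a : ℝ → ℝ → ℝ → ℝ := fun x y t => pd 0 u (x, y, cl t) with ha
  set b : ℝ → ℝ → ℝ → ℝ := fun x y t => pd 1 u (x, y, cl t) with hb
  set w : ℝ → ℝ → ℝ → ℝ := fun x y t => pd 2 u (x, y, cl t) with hw
  have cp : Continuous prof := by unfold prof; fun_prop
  -- the three pieces
  have cE1 : Continuous fun q : ℝ × ℝ × ℝ =>
      1 / K * (Real.exp (K * prof q.2.2) * a q.1 q.2.1 q.2.2 ^ 2) :=
    continuous_const.mul ((Real.continuous_exp.comp (continuous_const.mul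
      (cp.comp (continuous_snd.comp continuous_snd)))).mul (D.ca.pow 2))
  have cE2 : Continuous fun q : ℝ × ℝ × ℝ =>
      1 / K * (Real.exp (-(K * prof q.2.2)) * b q.1 q.2.1 q.2.2 ^ 2) :=
    continuous_const.mul ((Real.continuous_exp.comp (continuous_const.mul
      (cp.comp (continuous_snd.comp continuous_snd))).neg).mul (D.cb.pow 2))
  have cE3 : Continuous fun q : ℝ × ℝ × ℝ => K * w q.1 q.2.1 q.2.2 ^ 2 :=
    continuous_const.mul (D.cw.pow 2)
  have k1 : ∀ x y, ∫ r in (0:ℝ)..1, gradSq (gK K) u (x, y, r) * √(gK K (x, y, r)).det =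
      (∫ r in (0:ℝ)..1, 1 / K * (Real.exp (K * prof r) * a x y r ^ 2)) +
      (∫ r in (0:ℝ)..1, 1 / K * (Real.exp (-(K * prof r)) * b x y r ^ 2)) +
      K * RR w x y := by
    intro x y
    have e1 : ∫ r in (0:ℝ)..1, gradSq (gK K) u (x, y, r) * √(gK K (x, y, r)).det =
      ∫ r in (0:ℝ)..1, (1 / K * (Real.exp (K * prof r) * a x y r ^ 2) +
        1 / K * (Real.exp (-(K * prof r)) * b x y r ^ 2) + K * w x y r ^ 2) := by
      apply intervalIntegral.integral_congr
      intro r hr
      rw [uIcc_of_le zero_le_one] at hr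
      simp only [gradSq_eq hK, ha, hb, hw, cl_eq hr]
      field_simp
    have m3 : Continuous fun r : ℝ => ((x, y, r) : ℝ × ℝ × ℝ) := by fun_prop
    rw [e1, intervalIntegral.integral_add, intervalIntegral.integral_add,
      intervalIntegral.integral_const_mul (a := 0) (b := 1) K]
    · rfl
    · exact (cE1.comp m3).intervalIntegrable _ _
    · exact (cE2.comp m3).intervalIntegrable _ _
    · exact ((cE1.comp m3).add (cE2.comp m3)).intervalIntegrable _ _
    · exact (cE3.comp m3).intervalIntegrable _ _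
  have k2 : ∀ x y, K * (∫ r in (1/6:ℝ)..(1/3), a x y r ^ 2) ≤
      ∫ r in (0:ℝ)..1, 1 / K * (Real.exp (K * prof r) * a x y r ^ 2) := by
    intro x y
    have m3 : Continuous fun r : ℝ => ((x, y, r) : ℝ × ℝ × ℝ) := by fun_prop
    rw [← intervalIntegral.integral_const_mul]
    have cA : Continuous fun q : ℝ × ℝ × ℝ => K * a q.1 q.2.1 q.2.2 ^ 2 :=
      continuous_const.mul (D.ca.pow 2)
    refine layer (f := fun r => 1 / K * (Real.exp (K * prof r) * a x y r ^ 2))
      (g := fun r => K * a x y r ^ 2) (cE1.comp m3) (cA.comp m3) (by norm_num)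
      (by norm_num) (by norm_num) ?_ ?_
    · intro t; positivity
    · intro t ht
      have := exp_ge hK (prof_lo ht.1 ht.2)
      have h2 : K ≤ 1 / K * Real.exp (K * prof t) := by
        rw [one_div, inv_mul_eq_div, le_div_iff₀ hK]; linarith
      calc K * a x y t ^ 2 ≤ (1 / K * Real.exp (K * prof t)) * a x y t ^ 2 := by gcongr
        _ = _ := by ring
  have k3 : ∀ x y, K * (∫ r in (2/3:ℝ)..(5/6), b x y r ^ 2) ≤
      ∫ r in (0:ℝ)..1, 1 / K * (Real.exp (-(K * prof r)) * b x y r ^ 2) := by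
    intro x y
    have m3 : Continuous fun r : ℝ => ((x, y, r) : ℝ × ℝ × ℝ) := by fun_prop
    rw [← intervalIntegral.integral_const_mul]
    have cA : Continuous fun q : ℝ × ℝ × ℝ => K * b q.1 q.2.1 q.2.2 ^ 2 :=
      continuous_const.mul (D.cb.pow 2)
    refine layer (f := fun r => 1 / K * (Real.exp (-(K * prof r)) * b x y r ^ 2))
      (g := fun r => K * b x y r ^ 2) (cE2.comp m3) (cA.comp m3) (by norm_num)
      (by norm_num) (by norm_num) ?_ ?_
    · intro t; positivity
    · intro t ht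
      have := exp_ge hK (prof_hi ht.1 ht.2)
      rw [mul_neg] at this
      have h2 : K ≤ 1 / K * Real.exp (-(K * prof t)) := by
        rw [one_div, inv_mul_eq_div, le_div_iff₀ hK]; linarith
      calc K * b x y t ^ 2 ≤ (1 / K * Real.exp (-(K * prof t))) * b x y t ^ 2 := by gcongr
        _ = _ := by ring
  -- assemble
  have c1 : Continuous fun q : ℝ × ℝ => ∫ r in (1/6:ℝ)..(1/3), a q.1 q.2 r ^ 2 := by
    apply intervalIntegral.continuous_parametric_intervalIntegral_of_continuous'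
    exact (D.ca' (continuous_fst.comp continuous_fst) (continuous_snd.comp continuous_fst)
      continuous_snd).pow 2
  have c2 : Continuous fun q : ℝ × ℝ => ∫ r in (2/3:ℝ)..(5/6), b q.1 q.2 r ^ 2 := by
    apply intervalIntegral.continuous_parametric_intervalIntegral_of_continuous'
    exact (D.cb' (continuous_fst.comp continuous_fst) (continuous_snd.comp continuous_fst)
      continuous_snd).pow 2
  have c3 : Continuous fun q : ℝ × ℝ => RR w q.1 q.2 := cont_RR D continuous_fst continuous_snd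
  have c1' : Continuous fun q : ℝ × ℝ =>
      ∫ r in (0:ℝ)..1, 1 / K * (Real.exp (K * prof r) * a q.1 q.2 r ^ 2) := by
    apply intervalIntegral.continuous_parametric_intervalIntegral_of_continuous'
    have : Continuous fun z : (ℝ × ℝ) × ℝ => ((z.1.1, z.1.2, z.2) : ℝ × ℝ × ℝ) := by fun_prop
    exact cE1.comp this
  have c2' : Continuous fun q : ℝ × ℝ =>
      ∫ r in (0:ℝ)..1, 1 / K * (Real.exp (-(K * prof r)) * b q.1 q.2 r ^ 2) := by
    apply intervalIntegral.continuous_parametric_intervalIntegral_of_continuous'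
    have : Continuous fun z : (ℝ × ℝ) × ℝ => ((z.1.1, z.1.2, z.2) : ℝ × ℝ × ℝ) := by fun_prop
    exact cE2.comp this
  have hA : (∫ y in (0:ℝ)..1, AA a y) = I2 fun x y => ∫ r in (1/6:ℝ)..(1/3), a x y r ^ 2 := by
    unfold AA I2
    apply swap
    exact c1.comp continuous_swap
  have hB : (∫ x in (0:ℝ)..1, BB b x) = I2 fun x y => ∫ r in (2/3:ℝ)..(5/6), b x y r ^ 2 := rfl
  rw [hA, hB, show (∫ x in (0:ℝ)..1, ∫ y in (0:ℝ)..1, RR w x y) = I2 (RR w) from rfl]
  rw [show energy (gK K) u = I2 fun x y => ∫ r in (0:ℝ)..1,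
    gradSq (gK K) u (x, y, r) * √(gK K (x, y, r)).det from rfl]
  simp only [k1]
  rw [← I2_add c3 c1, ← I2_add (c3.add c1) c2, ← I2_mul]
  apply I2_mono
  · exact continuous_const.mul ((c3.add c1).add c2)
  · exact (c1'.add c2').add (continuous_const.mul c3)
  · intro x y
    have := k2 x y
    have := k3 x y
    linarith

theorem quot_ge {K : ℝ} (hK : 0 < K) {u : P → ℝ} (hu : IsSmooth u)
    (h0 : bdryIntegral (gK K) u = 0) (h2 : bdryIntegral (gK K) (fun p => u p ^ 2) ≠ 0) :
    K / 30 ≤ energy (gK K) u / bdryIntegral (gK K) (fun p => u p ^ 2) := by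
  have D := mkDat hu.1
  have e0 : cl 0 = 0 := cl_eq ⟨le_refl _, zero_le_one⟩
  have e1 : cl 1 = 1 := cl_eq ⟨zero_le_one, le_refl _⟩
  have c0 : Continuous fun q : ℝ × ℝ => u (q.1, q.2, 0) := by
    have := D.cU' (X := ℝ × ℝ) (k := fun _ => 0) continuous_fst continuous_snd continuous_const
    simpa only [e0] using this
  have c1 : Continuous fun q : ℝ × ℝ => u (q.1, q.2, 1) := by
    have := D.cU' (X := ℝ × ℝ) (k := fun _ => 1) continuous_fst continuous_snd continuous_const
    simpa only [e1] using this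
  have hE := energy_ge hK hu.1
  have hk := key D (by
    simp only [e0, e1]
    rw [← bdry_eq K c0 c1, h0])
  simp only [e0, e1] at hk
  have hB : bdryIntegral (gK K) (fun p => u p ^ 2) =
      I2 (fun x y => u (x, y, 0) ^ 2) + I2 (fun x y => u (x, y, 1) ^ 2) :=
    bdry_eq K (f := fun p => u p ^ 2) (c0.pow 2) (c1.pow 2)
  rw [← hB] at hk
  have hnn : 0 ≤ bdryIntegral (gK K) (fun p => u p ^ 2) := by
    rw [hB]
    have a1 : (0:ℝ) ≤ I2 (fun x y => u (x, y, 0) ^ 2) := by
      have := I2_mono (F := fun _ _ => 0) (G := fun x y => u (x, y, 0) ^ 2) continuous_const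
        (c0.pow 2) fun _ _ => sq_nonneg _
      rwa [I2_const] at this
    have a2 : (0:ℝ) ≤ I2 (fun x y => u (x, y, 1) ^ 2) := by
      have := I2_mono (F := fun _ _ => 0) (G := fun x y => u (x, y, 1) ^ 2) continuous_const
        (c1.pow 2) fun _ _ => sq_nonneg _
      rwa [I2_const] at this
    linarith
  have hpos : 0 < bdryIntegral (gK K) (fun p => u p ^ 2) := lt_of_le_of_ne hnn (Ne.symm h2)
  rw [le_div_iff₀ hpos]
  nlinarith

theorem sigma_ge {K : ℝ} (hK : 0 < K) : K / 30 ≤ sigma1 (gK K) := by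
  apply le_csInf
  · -- the function `r - 1/2` is admissible
    refine ⟨_, fun p => p.2.2 - 1 / 2, ⟨?_, ?_⟩, ?_, ?_, rfl⟩
    · exact ContDiff.contDiffOn (by fun_prop)
    · intro x y r _; exact ⟨rfl, rfl⟩
    · rw [bdry_eq K (by fun_prop) (by fun_prop)]
      simp only [I2_const]; norm_num
    · rw [bdry_eq K (by fun_prop) (by fun_prop)]
      simp only [I2_const]; norm_num
  · rintro q ⟨u, hu, h0, h2, rfl⟩
    exact quot_ge hK hu h0 h2

theorem main : ∃ g : ℕ → P → Matrix (Fin 3) (Fin 3) ℝ,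
    (∀ n, IsMetric (g n)) ∧ (∀ n, bdryArea (g n) = 2) ∧
    Tendsto (fun n => vol (g n)) atTop (𝓝 0) ∧
    Tendsto (fun n => sigma1 (g n)) atTop atTop := by
  refine ⟨fun n => gK (n + 1), fun n => gK_metric (by positivity), fun n => bdry_area _, ?_, ?_⟩
  · have : (fun n : ℕ => vol (gK (n + 1))) = fun n : ℕ => 1 / ((n : ℝ) + 1) := by
      funext n; exact vol_eq (by positivity)
    rw [this]
    exact tendsto_one_div_add_atTop_nhds_zero_nat
  · apply tendsto_atTop_mono (f := fun n : ℕ => ((n : ℝ) + 1) / 30)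
    · intro n; exact sigma_ge (by positivity)
    · apply Tendsto.atTop_div_const (by norm_num)
      exact tendsto_atTop_add_const_right _ _ tendsto_natCast_atTop_atTop

end Pool.Agent.W545.Tor
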